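import Pool.Agent.Helper14_DK.Stmts

/-!
# Squad DK, module LOC: localisation of the weak equations
-/

set_option autoImplicit false

namespace Pool.Agent.DK.H81

open MeasureTheory Complex Set Metric Filter
open scoped ContDiff Topology

theorem loc : LocStmt := by
  intro n D f d η hD hf hd hcl hdiv hη
  refine ⟨?_, ?_⟩
  · intro j k v hv _
    have key : ∀ j k : Fin n,
        Integrable (fun z => f j z * dbar k (fun y => v y * η y) z) ∧
        Integrable (fun z => f j z * (v z * dbar k η z)) ∧
        ∫ z, η z * f j z * dbar k v z =
          (∫ z, f j z * dbar k (fun y => v y * η y) z) - ∫ z, f j z * (v z * dbar k η z) := by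
      intro j k
      have t1 : IsTest D (fun y => v y * η y) := hη.mul hD hv.contDiffOn
      have i1 := hf j _ (t1.dbar k)
      have t2 : IsTest D (fun y => v y * dbar k η y) := (hη.dbar k).mul hD hv.contDiffOn
      have i2 := hf j _ t2
      refine ⟨i1, i2, ?_⟩
      rw [← integral_sub i1 i2]
      refine integral_congr_ae (Eventually.of_forall fun z => ?_)
      simp only
      rw [dbar_mul (hv.differentiable (by simp) z) (hη.differentiable z)]
      ring
    obtain ⟨a1, a2, a3⟩ := key j k
    obtain ⟨b1, b2, b3⟩ := key k j
    have t1 : IsTest D (fun y => v y * η y) := hη.mul hD hv.contDiffOn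
    rw [a3, b3, hcl j k _ t1]
    have e : (∫ z, (f j z * dbar k η z - f k z * dbar j η z) * v z) =
        (∫ z, f j z * (v z * dbar k η z)) - ∫ z, f k z * (v z * dbar j η z) := by
      rw [← integral_sub a2 b2]
      refine integral_congr_ae (Eventually.of_forall fun z => ?_)
      simp only
      ring
    rw [e]
    ring
  · intro v hv _
    have t1 : IsTest D (fun y => v y * η y) := hη.mul hD hv.contDiffOn
    have i1 : ∀ j, Integrable (fun z => f j z * dz j (fun y => v y * η y) z) :=
      fun j => hf j _ (t1.dz j)
    have i2 : ∀ j, Integrable (fun z => f j z * (v z * dz j η z)) :=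
      fun j => hf j _ ((hη.dz j).mul hD hv.contDiffOn)
    have i3 : Integrable (fun z => d z * (v z * η z)) := hd _ t1
    have s1 : Integrable (fun z => ∑ j, f j z * dz j (fun y => v y * η y) z) :=
      integrable_finsetSum _ fun j _ => i1 j
    have s2 : Integrable (fun z => ∑ j, f j z * (v z * dz j η z)) :=
      integrable_finsetSum _ fun j _ => i2 j
    have e1 : (∫ z, ∑ j, η z * f j z * dz j v z) =
        (∫ z, ∑ j, f j z * dz j (fun y => v y * η y) z) - ∫ z, ∑ j, f j z * (v z * dz j η z) := by
      rw [← integral_sub s1 s2]
      refine integral_congr_ae (Eventually.of_forall fun z => ?_)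
      simp only
      rw [← Finset.sum_sub_distrib]
      refine Finset.sum_congr rfl fun j _ => ?_
      rw [dz_mul (hv.differentiable (by simp) z) (hη.differentiable z)]
      ring
    have e2 : (∫ z, (η z * d z + ∑ j, f j z * dz j η z) * v z) =
        (∫ z, d z * (v z * η z)) + ∫ z, ∑ j, f j z * (v z * dz j η z) := by
      rw [← integral_add i3 s2]
      refine integral_congr_ae (Eventually.of_forall fun z => ?_)
      simp only
      rw [add_mul, Finset.sum_mul]
      congr 1
      · ring
      · exact Finset.sum_congr rfl fun j _ => by ring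
    rw [e1, e2, hdiv _ t1]
    ring

end Pool.Agent.DK.H81
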